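import Pool.Agent.W641.LQ.ApxCore
import Pool.Agent.W361.LQ.Stm

/-! # LQ-APX: `F` approximates the distance -/

set_option autoImplicit false

namespace Pool.Agent.W641.LQ

open Pool.Agent.W361.LQ

theorem apx : S_APX := fun hV c c' k => core hV c c' k

end Pool.Agent.W641.LQ
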