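import Pool.Agent.W361.LQ.Defs

/-! # LQ-APX: `F` approximates the distance (core) -/

set_option autoImplicit false

namespace Pool.Agent.W641.LQ

open Pool.Agent.W361.LQ

theorem floor_bounds (N : ℕ) (x : ℕ × ℕ) (hx : 0 < x.2) :
    ((2 ^ N * x.1 / x.2 : ℕ) : ℝ) ≤ 2 ^ N * ((x.1 : ℝ) / x.2) ∧
      2 ^ N * ((x.1 : ℝ) / x.2) < ((2 ^ N * x.1 / x.2 : ℕ) : ℝ) + 1 := by
  have hx' : (0 : ℝ) < x.2 := by exact_mod_cast hx
  have e : (2 : ℝ) ^ N * ((x.1 : ℝ) / x.2) = (((2 ^ N * x.1 : ℕ) : ℝ) / (x.2 : ℝ)) := by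
    push_cast
    ring
  rw [e]
  refine ⟨Nat.cast_div_le, ?_⟩
  rw [← Nat.floor_div_eq_div (K := ℝ)]
  exact Nat.lt_floor_add_one _

theorem cast_sub_add (a b : ℕ) : (((a - b) + (b - a) : ℕ) : ℝ) = |(a : ℝ) - b| := by
  rcases le_total a b with h | h
  · rw [Nat.sub_eq_zero_of_le h, zero_add, Nat.cast_sub h, abs_of_nonpos]
    · ring
    · have : (a : ℝ) ≤ b := by exact_mod_cast h
      linarith
  · rw [Nat.sub_eq_zero_of_le h, add_zero, Nat.cast_sub h, abs_of_nonneg]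
    have : (b : ℝ) ≤ a := by exact_mod_cast h
    linarith

theorem nd_approx (N : ℕ) (x y : ℕ × ℕ) (hx : 0 < x.2) (hy : 0 < y.2) :
    abs ((nd N x y : ℝ) / 2 ^ N - abs ((x.1 : ℝ) / x.2 - (y.1 : ℝ) / y.2)) ≤ 1 / 2 ^ N := by
  obtain ⟨h1, h2⟩ := floor_bounds N x hx
  obtain ⟨h3, h4⟩ := floor_bounds N y hy
  have hN : (0 : ℝ) < 2 ^ N := by positivity
  unfold nd
  rw [cast_sub_add]
  generalize ((2 ^ N * x.1 / x.2 : ℕ) : ℝ) = a at *
  generalize ((2 ^ N * y.1 / y.2 : ℕ) : ℝ) = b at *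
  generalize (x.1 : ℝ) / x.2 = X at *
  generalize (y.1 : ℝ) / y.2 = Y at *
  have e1 : |a - b| / 2 ^ N = |(a - b) / 2 ^ N| := by
    rw [abs_div, abs_of_pos hN]
  rw [e1]
  refine (abs_abs_sub_abs_le_abs_sub _ _).trans ?_
  have e2 : (a - b) / 2 ^ N - (X - Y) = ((a - 2 ^ N * X) - (b - 2 ^ N * Y)) / 2 ^ N := by
    field_simp
    ring
  rw [e2, abs_div, abs_of_pos hN]
  refine div_le_div_of_nonneg_right ?_ hN.le
  rw [abs_le]
  constructor <;> linarith

/-- the maximum in one coordinate -/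
def mi (N : ℕ) (c c' : Cd) (i : ℕ) : ℕ :=
  max (nd N (q0 c i) (q0 c' i)) (max (nd N (q1 c i) (q1 c' i)) (nd N (q2 c i) (q2 c' i)))

theorem mx_spec (N : ℕ) (c c' : Cd) (n : ℕ) :
    (∀ i < n, mi N c c' i ≤ mx N c c' n) ∧ (mx N c c' n = 0 ∨ ∃ i < n, mx N c c' n = mi N c c' i) := by
  induction n with
  | zero => exact ⟨fun i hi => absurd hi (Nat.not_lt_zero i), Or.inl rfl⟩
  | succ n ih =>
    have e : mx N c c' (n + 1) = max (mx N c c' n) (mi N c c' n) := rfl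
    rw [e]
    refine ⟨fun i hi => ?_, ?_⟩
    · rcases Nat.lt_succ_iff_lt_or_eq.1 hi with h | h
      · exact (ih.1 i h).trans (le_max_left _ _)
      · rw [h]
        exact le_max_right _ _
    · rcases le_total (mx N c c' n) (mi N c c' n) with h | h
      · rw [max_eq_right h]
        exact Or.inr ⟨n, Nat.lt_succ_self n, rfl⟩
      · rw [max_eq_left h]
        rcases ih.2 with h' | ⟨i, hi, h'⟩
        · exact Or.inl h'
        · exact Or.inr ⟨i, hi.trans (Nat.lt_succ_self n), h'⟩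

theorem max_approx {a b a' b' ε : ℝ} (h : |a - a'| ≤ ε) (h' : |b - b'| ≤ ε) :
    |max a b - max a' b'| ≤ ε :=
  (abs_max_sub_max_le_max a b a' b').trans (max_le h h')

theorem core (hV : ∀ (c : Cd) (i : ℕ), 0 < (q0 c i).2 ∧ 0 < (q1 c i).2 ∧ 0 < (q2 c i).2 ∧
    crd (pm c) i = (((q0 c i).1 : ℝ) / (q0 c i).2, ((q1 c i).1 : ℝ) / (q1 c i).2,
    ((q2 c i).1 : ℝ) / (q2 c i).2)) (c c' : Cd) (k : ℕ) :
    |(F c c' k : ℝ) / 2 ^ k - dist (Phi (pm c)) (Phi (pm c'))| ≤ 1 / 2 ^ k := by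
  -- coordinates
  have hmi : ∀ i, |(mi (k + 3) c c' i : ℝ) / 2 ^ (k + 3) - dist (crd (pm c) i) (crd (pm c') i)| ≤
      1 / 2 ^ (k + 3) := by
    intro i
    obtain ⟨a0, a1, a2, a3⟩ := hV c i
    obtain ⟨b0, b1, b2, b3⟩ := hV c' i
    rw [a3, b3, Prod.dist_eq, Prod.dist_eq]
    simp only [Real.dist_eq]
    unfold mi
    have hN : (0 : ℝ) ≤ 2 ^ (k + 3) := by positivity
    rw [Nat.cast_max, Nat.cast_max, ← max_div_div_right hN, ← max_div_div_right hN]
    exact max_approx (nd_approx _ _ _ a0 b0)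
      (max_approx (nd_approx _ _ _ a1 b1) (nd_approx _ _ _ a2 b2))
  obtain ⟨hG1, hG2⟩ := mx_spec (k + 3) c c' (k + 4)
  set G := mx (k + 3) c c' (k + 4) with hG
  have hGD : |(G : ℝ) / 2 ^ (k + 3) - dist (Phi (pm c)) (Phi (pm c'))| ≤ 1 / 2 ^ (k + 3) := by
    rw [abs_le]
    constructor
    · have h1 : dist (Phi (pm c)) (Phi (pm c')) ≤ (G : ℝ) / 2 ^ (k + 3) + 1 / 2 ^ (k + 3) := by
        rw [BoundedContinuousFunction.dist_le (by positivity)]
        intro i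
        rw [Phi_apply, Phi_apply]
        by_cases hi : i < k + 4
        · have h2 := (abs_le.1 (hmi i)).1
          have h3 : (mi (k + 3) c c' i : ℝ) ≤ G := by exact_mod_cast hG1 i hi
          have h4 : (mi (k + 3) c c' i : ℝ) / 2 ^ (k + 3) ≤ (G : ℝ) / 2 ^ (k + 3) :=
            div_le_div_of_nonneg_right h3 (by positivity)
          linarith
        · push Not at hi
          have h2 : ∀ a : Pm, ‖crd a i‖ ≤ (1 / 2 : ℝ) ^ (k + 4) := fun a =>
            (norm_crd_le' a i).trans (pow_le_pow_of_le_one (by norm_num) (by norm_num) hi)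
          have h3 : dist (crd (pm c) i) (crd (pm c') i) ≤ (1 / 2 : ℝ) ^ (k + 4) + (1 / 2) ^ (k + 4) := by
            rw [dist_eq_norm]
            exact (norm_sub_le _ _).trans (add_le_add (h2 _) (h2 _))
          have h4 : (1 / 2 : ℝ) ^ (k + 4) + (1 / 2) ^ (k + 4) = 1 / 2 ^ (k + 3) := by
            rw [div_pow, one_pow, pow_succ (2 : ℝ) (k + 3)]
            field_simp
            norm_num
          have h5 : (0 : ℝ) ≤ (G : ℝ) / 2 ^ (k + 3) := by positivity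
          linarith
      linarith
    · rcases hG2 with h | ⟨i, hi, h⟩
      · rw [h]
        have h1 : 0 ≤ dist (Phi (pm c)) (Phi (pm c')) := dist_nonneg
        have h2 : (0 : ℝ) ≤ 1 / 2 ^ (k + 3) := by positivity
        simp only [Nat.cast_zero, zero_div, zero_sub]
        linarith
      · rw [h]
        have h1 := (abs_le.1 (hmi i)).2
        have h2 : dist (crd (pm c) i) (crd (pm c') i) ≤ dist (Phi (pm c)) (Phi (pm c')) :=
          BoundedContinuousFunction.dist_coe_le_dist (f := Phi (pm c)) (g := Phi (pm c')) i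
        linarith
  -- the division by 8
  have hF : F c c' k = G / 8 := rfl
  have h8 : 8 * (F c c' k) ≤ G ∧ G ≤ 8 * (F c c' k) + 7 := by
    rw [hF]
    omega
  have h81 : 8 * (F c c' k : ℝ) ≤ G := by exact_mod_cast h8.1
  have h82 : (G : ℝ) ≤ 8 * (F c c' k : ℝ) + 7 := by exact_mod_cast h8.2
  have hk : (0 : ℝ) < 2 ^ k := by positivity
  have hGD' := abs_le.1 hGD
  have e3 : (2 : ℝ) ^ (k + 3) = 2 ^ k * 8 := by
    rw [pow_add]; norm_num
  rw [e3] at hGD'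
  rw [abs_le]
  have e4 : (G : ℝ) / (2 ^ k * 8) = ((G : ℝ) / 8) / 2 ^ k := by
    field_simp
  have e5 : (1 : ℝ) / (2 ^ k * 8) = (1 / 8) / 2 ^ k := by
    field_simp
  rw [e4, e5] at hGD'
  have h9 : (F c c' k : ℝ) / 2 ^ k ≤ ((G : ℝ) / 8) / 2 ^ k :=
    div_le_div_of_nonneg_right (by linarith) hk.le
  have h10 : ((G : ℝ) / 8) / 2 ^ k ≤ (F c c' k : ℝ) / 2 ^ k + (7 / 8) / 2 ^ k := by
    rw [← add_div]
    exact div_le_div_of_nonneg_right (by linarith) hk.le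
  have h11 : (7 / 8 : ℝ) / 2 ^ k + (1 / 8) / 2 ^ k = 1 / 2 ^ k := by
    rw [← add_div]
    norm_num
  have h12 : (0 : ℝ) ≤ (7 / 8 : ℝ) / 2 ^ k := by positivity
  constructor <;> linarith [hGD'.1, hGD'.2]

end Pool.Agent.W641.LQ
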